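import Pool.Agent.helper62.EN.SpecA

/-! Row JEN of the project EN (MP_07c750_an): concavity of the entropy of a partition in the measure. -/

set_option autoImplicit false

open scoped Topology
open MeasureTheory Filter Set

namespace Pool.Agent.EN

theorem JEN_real {X : Type} [MeasurableSpace X] (ρ : ℕ → Measure X) (n : ℕ)
    (hρ : ∀ i, IsProbabilityMeasure (ρ i)) (A : Set X) :
    ((n : ENNReal)⁻¹ • ∑ i ∈ Finset.range n, ρ i).real A =
      ∑ i ∈ Finset.range n, (1 / (n : ℝ)) • (ρ i).real A := by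
  have h1 : ∀ i ∈ Finset.range n, (ρ i) A ≠ ⊤ := fun i _ => measure_ne_top _ _
  unfold Measure.real
  rw [Measure.smul_apply, Measure.finsetSum_apply, smul_eq_mul, ENNReal.toReal_mul,
    ENNReal.toReal_sum h1, ENNReal.toReal_inv, ENNReal.toReal_natCast, Finset.mul_sum]
  refine Finset.sum_congr rfl fun i _ => ?_
  rw [smul_eq_mul, one_div]

theorem JEN_proof : JEN_stmt := by
  intro X _ ρ T p P m n hρ hn
  have hn0 : (n : ℝ) ≠ 0 := by
    have : n ≠ 0 := by omega
    exact_mod_cast this
  have hnp : (0 : ℝ) < n := by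
    have : 0 < n := by omega
    exact_mod_cast this
  unfold Hn
  rw [Finset.sum_comm, Finset.mul_sum]
  refine Finset.sum_le_sum fun w _ => ?_
  have h1 := Real.concaveOn_negMulLog.le_map_sum (t := Finset.range n) (w := fun _ => 1 / (n : ℝ))
    (p := fun i => (ρ i).real {x | ∀ i : Fin m, P (T^[i] x) = w i})
    (fun i _ => by positivity)
    (by
      rw [Finset.sum_const, Finset.card_range, nsmul_eq_mul]
      field_simp)
    (fun i _ => by
      rw [Set.mem_Ici]
      exact measureReal_nonneg)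
  rw [JEN_real ρ n hρ]
  have h2 : ∑ i ∈ Finset.range n, (1 / (n : ℝ)) • Real.negMulLog ((ρ i).real {x | ∀ i : Fin m, P (T^[i] x) = w i})
      = (1 / (n : ℝ)) * ∑ i ∈ Finset.range n, Real.negMulLog ((ρ i).real {x | ∀ i : Fin m, P (T^[i] x) = w i}) := by
    rw [Finset.mul_sum]
    rfl
  rw [h2] at h1
  have h3 := mul_le_mul_of_nonneg_left h1 hnp.le
  rwa [← mul_assoc, mul_one_div_cancel hn0, one_mul] at h3

end Pool.Agent.EN
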