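import Pool.Agent.helper62.EN.SpecP
import Pool.Agent.helper62.RS.All

/-! Row WTP of the project EN (MP_07c750_an): basic properties of the packet measures. -/

set_option autoImplicit false

open scoped MatrixGroups ContDiff Topology UpperHalfPlane ComplexConjugate
open UpperHalfPlane MeasureTheory Filter Set

namespace Pool.Agent.EN

open Pool.Agent.RS

/-- complex conjugation commutes with the Laplace operator (helper8, row EIN of RS) -/
theorem WTP_conj (φ : ℍ → ℂ) (h : QU.CD 2 φ) : QU.CD 2 (fun z => conj (φ z)) ∧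
    ∀ z, QU.lap (fun z => conj (φ z)) z = conj (QU.lap φ z) := by
  have e0 : QU.onC (fun z => conj (φ z)) = fun w => Complex.conjCLE (QU.onC φ w) := by
    funext w
    rfl
  refine ⟨?_, ?_⟩
  · unfold QU.CD
    rw [e0]
    exact Complex.conjCLE.contDiff.comp_contDiffOn h
  · intro z
    have hz : 0 < (z : ℂ).im := z.im_pos
    have hopen : IsOpen {w : ℂ | 0 < w.im} := isOpen_lt continuous_const Complex.continuous_im
    have hcd : ContDiffAt ℝ 2 (QU.onC φ) (z : ℂ) := h.contDiffAt (hopen.mem_nhds hz)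
    have hcd1 : ContDiffAt ℝ 1 (fderiv ℝ (QU.onC φ)) (z : ℂ) := hcd.fderiv_right (by norm_num)
    have hd : DifferentiableAt ℝ (fderiv ℝ (QU.onC φ)) (z : ℂ) := hcd1.differentiableAt (by norm_num)
    have e1 : fderiv ℝ (QU.onC (fun z => conj (φ z))) =
        fun w => (ContinuousLinearMap.compL ℝ ℂ ℂ ℂ (Complex.conjCLE : ℂ →L[ℝ] ℂ)) (fderiv ℝ (QU.onC φ) w) := by
      funext w
      rw [e0]
      exact Complex.conjCLE.comp_fderiv
    have e2 : fderiv ℝ (fderiv ℝ (QU.onC (fun z => conj (φ z)))) (z : ℂ) =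
        (ContinuousLinearMap.compL ℝ ℂ ℂ ℂ (Complex.conjCLE : ℂ →L[ℝ] ℂ)).comp
          (fderiv ℝ (fderiv ℝ (QU.onC φ)) (z : ℂ)) := by
      rw [e1]
      exact ((ContinuousLinearMap.compL ℝ ℂ ℂ ℂ (Complex.conjCLE : ℂ →L[ℝ] ℂ)).hasFDerivAt.comp (z : ℂ)
        hd.hasFDerivAt).fderiv
    unfold QU.lap
    rw [e2]
    simp

/-- a probability measure with a density, pushed forward -/
theorem WTP_meas {Y X : Type} [MeasurableSpace Y] [MeasurableSpace X] (μ : Measure Y)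
    (w : Y → ℝ) (m : Y → X) (hm : Measurable m) (hw : Measurable w) (hw0 : ∀ g, 0 ≤ w g)
    (hi : Integrable w μ) (J : ℝ) (hJ : J = ∫ g, w g ∂μ) (hJ0 : 0 < J) :
    IsProbabilityMeasure ((ENNReal.ofReal J)⁻¹ • (μ.withDensity (fun g => ENNReal.ofReal (w g))).map m) ∧
    ∀ Ψ : X → ℝ, Measurable Ψ →
      J * ∫ x, Ψ x ∂((ENNReal.ofReal J)⁻¹ • (μ.withDensity (fun g => ENNReal.ofReal (w g))).map m) =
        ∫ g, Ψ (m g) * w g ∂μ := by
  have h0 : ENNReal.ofReal J ≠ 0 := by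
    rw [Ne, ENNReal.ofReal_eq_zero, not_le]
    exact hJ0
  refine ⟨⟨?_⟩, fun Ψ hΨ => ?_⟩
  · rw [Measure.smul_apply, Measure.map_apply hm MeasurableSet.univ, Set.preimage_univ,
      withDensity_apply _ MeasurableSet.univ, Measure.restrict_univ,
      ← ofReal_integral_eq_lintegral_ofReal hi (Eventually.of_forall hw0), ← hJ, smul_eq_mul,
      ENNReal.inv_mul_cancel h0 ENNReal.ofReal_ne_top]
  · rw [integral_smul_measure, integral_map hm.aemeasurable hΨ.aestronglyMeasurable,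
      integral_withDensity_eq_integral_toReal_smul hw.ennreal_ofReal
        (Eventually.of_forall fun _ => ENNReal.ofReal_lt_top), ENNReal.toReal_inv,
      ENNReal.toReal_ofReal hJ0.le, smul_eq_mul, ← mul_assoc, mul_inv_cancel₀ hJ0.ne', one_mul]
    refine integral_congr_ae (Eventually.of_forall fun g => ?_)
    simp only [smul_eq_mul]
    rw [ENNReal.toReal_ofReal (hw0 g), mul_comm]

theorem WTP_proof (h1 : XFL_stmt) : WTP_stmt := by
  intro Γ F c r κ k₀ δ N s φ hGD hδ hδ1 hfam hN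
  obtain ⟨-, -, hmk, -⟩ := h1 Γ
  obtain ⟨hs, heig, hon⟩ := hfam
  have hΓ := hGD.surf
  have hF := hGD.nice
  have hκ := hGD.pκ
  have hc := hGD.tb
  obtain ⟨hlc, hsc, -⟩ := A_GLC
  have : LocallyCompactSpace SL(2, ℝ) := hlc
  have : SecondCountableTopology SL(2, ℝ) := hsc
  obtain ⟨⟨hdm, hdv, hfin, -⟩, -⟩ := A_GFD Γ F hΓ hF
  have hfm : IsFiniteMeasure (mG.restrict (dG F)) := ⟨by rw [Measure.restrict_apply_univ]; exact hfin⟩
  obtain ⟨heS, hecs⟩ := A_FL0.2.1 (1 / 4) r c hc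
  have ca := QU.A_CA1 ℂ
  have hcd0 : ∀ f : ℍ → ℂ, QU.CD 2 f → Continuous f := fun f hf =>
    (ca.1 f).1 (ca.2.1 f 0 2 (by norm_num) hf)
  have hec : Continuous (pk r c) := (ca.1 _).1 (ca.2.1 _ 0 ∞ (by simp) heS)
  have heL : ∀ j, EigL Γ (1 / 4 + s j ^ 2) (φ j) := fun j =>
    ⟨ca.2.1 _ 2 ∞ (WithTop.coe_le_coe.2 le_top) (heig j).1, (heig j).2.1, (heig j).2.2⟩
  have heLc : ∀ j, EigL Γ (1 / 4 + s j ^ 2) (fun z => conj (φ j z)) := by
    intro j
    have h1 := WTP_conj (φ j) (heL j).1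
    refine ⟨h1.1, ?_, ?_⟩
    · intro γ z
      show conj (φ j (γ • z)) = conj (φ j z)
      rw [(heL j).2.1]
    · intro z
      rw [h1.2, (heL j).2.2, map_mul, Complex.conj_ofReal]
  have hI : ∀ ψ : ℍ → ℂ, ∀ μ : ℝ, EigL Γ μ ψ → InvC Γ ψ := fun ψ μ h => ⟨hcd0 ψ h.1, h.2.1⟩
  have hnn : ∀ j, nn F (φ j) = 1 := by
    intro j
    have h1 := hon j j
    rw [if_pos rfl] at h1
    have h2 : (∫ z in F, φ j z * conj (φ j z)) = ((nn F (φ j) : ℝ) : ℂ) := by
      unfold nn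
      rw [← integral_complex_ofReal]
      congr 1
      funext z
      rw [Complex.mul_conj, Complex.normSq_eq_norm_sq]
    rw [h2] at h1
    exact_mod_cast h1
  have hnnc : ∀ j, nn F (fun z => conj (φ j z)) = 1 := by
    intro j
    rw [← hnn j]
    unfold nn
    congr 1
    funext z
    rw [RCLike.norm_conj]
  have hsr : ∀ j, |s j - r| ≤ 1 := by
    intro j
    rw [abs_of_nonneg (by linarith [(hs j).1])]
    linarith [(hs j).2]
  -- the numbers
  have hA1 : ∀ j, 1 - δ ^ 2 ≤ qn F c r (φ j) / κ := by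
    intro j
    have h1 := hGD.low (s j) (φ j) (hsr j) (heL j)
    rw [hnn j, mul_one] at h1
    rw [le_div_iff₀ hκ]
    exact h1
  have hA2 : ∀ j, qn F c r (φ j) / κ ≤ 1 := by
    intro j
    have h1 := hGD.up (φ j) (hI _ _ (heL j))
    rw [hnn j, mul_one] at h1
    rw [div_le_iff₀ hκ, one_mul]
    exact h1
  have hA0 : ∀ j, 0 ≤ qn F c r (φ j) / κ := by
    intro j
    refine div_nonneg ?_ hκ.le
    unfold qn iR
    exact integral_nonneg fun g => by positivity
  have hqc : ∀ j, qn F c r (fun z => conj (φ j z)) = qn F c r (φ j) := by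
    intro j
    have g1 := (A_GR2 Γ F hΓ hF (s j) (φ j) (heL j)).2 c r hc
    have g2 := (A_GR2 Γ F hΓ hF (s j) _ (heLc j)).2 c r hc
    rw [g1, g2, hnn, hnnc]
  have hG1 : ∀ j, InvG Γ (Wf (pk r c) (φ j)) := fun j =>
    A_FL0.2.2 Γ (pk r c) (φ j) hec hecs (hI _ _ (heL j))
  have hG2 : ∀ j, InvG Γ (Wf (pk r c) (fun z => conj (φ j z))) := fun j =>
    A_FL0.2.2 Γ (pk r c) (fun z => conj (φ j z)) hec hecs (hI _ _ (heLc j))
  have hint : ∀ u : SL(2, ℝ) → ℂ, InvG Γ u → Integrable (fun g => ‖u g‖ ^ 2) (mG.restrict (dG F)) := by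
    intro u hu
    obtain ⟨m, hm⟩ := (A_GBD Γ ℂ u hΓ hu).1
    refine Integrable.of_bound (hu.1.norm.pow 2).aestronglyMeasurable (m ^ 2) (Eventually.of_forall fun g => ?_)
    rw [Real.norm_eq_abs, abs_of_nonneg (by positivity)]
    exact pow_le_pow_left₀ (norm_nonneg _) (hm g) 2
  have hN' : (0 : ℝ) < N := by exact_mod_cast (Nat.lt_of_lt_of_le Nat.zero_lt_one hN)
  have hw0 : ∀ g, 0 ≤ wt F c r κ φ g := by
    intro g
    unfold wt
    refine div_nonneg (Finset.sum_nonneg fun j _ => mul_nonneg (hA0 j) (by positivity)) (by positivity)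
  have hwc : Continuous (wt F c r κ φ) := by
    unfold wt
    refine Continuous.div_const ?_ _
    exact continuous_finsetSum _ fun j _ =>
      continuous_const.mul (((hG2 j).1.norm.pow 2).add ((hG1 j).1.norm.pow 2))
  have hwG : InvG Γ (wt F c r κ φ) := by
    refine ⟨hwc, fun γ g => ?_⟩
    unfold wt
    congr 1
    refine Finset.sum_congr rfl fun j _ => ?_
    rw [(hG1 j).2 γ g, (hG2 j).2 γ g]
  have hterm : ∀ j, Integrable (fun g => qn F c r (φ j) / κ *
      (‖Wf (pk r c) (fun z => conj (φ j z)) g‖ ^ 2 + ‖Wf (pk r c) (φ j) g‖ ^ 2)) (mG.restrict (dG F)) :=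
    fun j => ((hint _ (hG2 j)).add (hint _ (hG1 j))).const_mul _
  have hwi : Integrable (wt F c r κ φ) (mG.restrict (dG F)) := by
    unfold wt
    exact (integrable_finsetSum _ fun j _ => hterm j).div_const _
  have hms : ms F c r κ φ = (∑ j, (qn F c r (φ j) / κ) ^ 2) / N := by
    have q0 : ms F c r κ φ = ∫ g, wt F c r κ φ g ∂(mG.restrict (dG F)) := rfl
    rw [q0]
    unfold wt
    rw [integral_div, integral_finsetSum _ fun j _ => hterm j]
    have q1 : ∀ j, ∫ g, qn F c r (φ j) / κ *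
        (‖Wf (pk r c) (fun z => conj (φ j z)) g‖ ^ 2 + ‖Wf (pk r c) (φ j) g‖ ^ 2) ∂(mG.restrict (dG F)) =
        (qn F c r (φ j) / κ) ^ 2 * (2 * κ) := by
      intro j
      rw [integral_const_mul, integral_add (hint _ (hG2 j)) (hint _ (hG1 j))]
      have q2 : ∫ g, ‖Wf (pk r c) (fun z => conj (φ j z)) g‖ ^ 2 ∂(mG.restrict (dG F)) = qn F c r (φ j) := hqc j
      have q3 : ∫ g, ‖Wf (pk r c) (φ j) g‖ ^ 2 ∂(mG.restrict (dG F)) = qn F c r (φ j) := rfl
      rw [q2, q3]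
      field_simp
      ring
    simp only [q1]
    rw [← Finset.sum_mul]
    field_simp
  have hms1 : 1 - 2 * δ ^ 2 ≤ ms F c r κ φ := by
    rw [hms, le_div_iff₀ hN']
    have g1 : ∑ _j : Fin N, (1 - 2 * δ ^ 2) ≤ ∑ j, (qn F c r (φ j) / κ) ^ 2 := by
      refine Finset.sum_le_sum fun j _ => ?_
      have g2 := hA1 j
      have g3 : 0 ≤ 1 - δ ^ 2 := by nlinarith
      nlinarith [sq_nonneg (δ ^ 2), sq_nonneg (qn F c r (φ j) / κ - (1 - δ ^ 2))]
    rw [Finset.sum_const, Finset.card_univ, Fintype.card_fin, nsmul_eq_mul] at g1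
    linarith
  have hms2 : ms F c r κ φ ≤ 1 := by
    rw [hms, div_le_iff₀ hN', one_mul]
    have g1 : ∑ j, (qn F c r (φ j) / κ) ^ 2 ≤ ∑ _j : Fin N, (1 : ℝ) := by
      refine Finset.sum_le_sum fun j _ => ?_
      exact pow_le_one₀ (hA0 j) (hA2 j)
    rw [Finset.sum_const, Finset.card_univ, Fintype.card_fin, nsmul_eq_mul, mul_one] at g1
    exact g1
  have hms0 : 0 < ms F c r κ φ := by nlinarith
  have hM := WTP_meas (mG.restrict (dG F)) (wt F c r κ φ) (mkX Γ) hmk.measurable hwc.measurable hw0 hwi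
    (ms F c r κ φ) rfl hms0
  refine ⟨hw0, hwG, hms1, hms2, fun j => ⟨hA2 j, hA0 j⟩, hM.1, fun Ψ hΨ _ => hM.2 Ψ hΨ⟩

end Pool.Agent.EN
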