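import Pool.Agent.helper62.EN.SpecX
import Pool.Agent.helper62.RS.GLC
import Pool.Agent.helper92.RS.GMG

/-! Row XVO of the project EN (MP_07c750_an): the volume of a thin set of `SL(2, ℝ)`. -/

set_option autoImplicit false

open scoped MatrixGroups ContDiff Topology UpperHalfPlane ComplexConjugate
open UpperHalfPlane MeasureTheory Filter Set

namespace Pool.Agent.EN

/-- a rectangle in the upper half plane -/
def XVO_B : Set ℍ := {z | 1 / 8 ≤ z.im ∧ z.im ≤ 8 ∧ |z.re| ≤ 8}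

theorem XVO_compact : IsCompact XVO_B := by
  rw [UpperHalfPlane.isOpenEmbedding_coe.isInducing.isCompact_iff]
  have h : ((↑) : ℍ → ℂ) '' XVO_B = (Icc (-8 : ℝ) 8) ×ℂ (Icc (1 / 8 : ℝ) 8) := by
    ext w
    constructor
    · rintro ⟨z, ⟨h1, h2, h3⟩, rfl⟩
      rw [Complex.mem_reProdIm]
      exact ⟨abs_le.1 h3, h1, h2⟩
    · intro hw
      rw [Complex.mem_reProdIm] at hw
      obtain ⟨⟨h1, h2⟩, h3, h4⟩ := hw
      have hw0 : 0 < w.im := by linarith
      exact ⟨⟨w, hw0⟩, ⟨h3, h4, abs_le.2 ⟨h1, h2⟩⟩, rfl⟩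
  rw [h]
  exact isCompact_Icc.reProdIm isCompact_Icc

theorem XVO_volume : (volume : Measure ℍ) XVO_B < ⊤ := by
  have h1 : RS.GLC_stmt := RS.GLC
  have h2 : RS.GMG_stmt := RS.GMG h1
  rw [← (h2.1 XVO_B XVO_compact.measurableSet).2]
  exact h2.2.1 _ (h1.2.2.1 XVO_B XVO_compact)

theorem XVO_sub (s θ : ℝ) (h : |Real.sin θ| ≤ s) (hθ : θ ∈ Ioc (0 : ℝ) (2 * Real.pi)) :
    θ ∈ (Icc (0 : ℝ) (Real.pi / 2 * s) ∪ Icc (Real.pi - Real.pi / 2 * s) (Real.pi + Real.pi / 2 * s))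
      ∪ Icc (2 * Real.pi - Real.pi / 2 * s) (2 * Real.pi) := by
  have hp := Real.pi_pos
  have key : ∀ φ : ℝ, |φ| ≤ Real.pi / 2 → |Real.sin φ| ≤ s → |φ| ≤ Real.pi / 2 * s := by
    intro φ h1 h2
    have h3 := Real.mul_abs_le_abs_sin h1
    have h4 : 2 / Real.pi * |φ| ≤ s := h3.trans h2
    have h5 : |φ| = Real.pi / 2 * (2 / Real.pi * |φ|) := by
      field_simp
    rw [h5]
    exact mul_le_mul_of_nonneg_left h4 (by positivity)
  obtain ⟨h0, h1⟩ := hθ
  by_cases c1 : θ ≤ Real.pi / 2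
  · left; left
    have h2 := key θ (by rw [abs_of_pos h0]; exact c1) h
    rw [abs_of_pos h0] at h2
    exact ⟨h0.le, h2⟩
  · by_cases c2 : θ ≤ 3 * Real.pi / 2
    · left; right
      push Not at c1
      have h2 : |θ - Real.pi| ≤ Real.pi / 2 := abs_le.2 ⟨by linarith, by linarith⟩
      have h3 : |Real.sin (θ - Real.pi)| ≤ s := by
        rw [Real.sin_sub_pi, abs_neg]
        exact h
      have h4 := abs_le.1 (key _ h2 h3)
      exact ⟨by linarith [h4.1], by linarith [h4.2]⟩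
    · right
      push Not at c2
      have h2 : |θ - 2 * Real.pi| ≤ Real.pi / 2 := abs_le.2 ⟨by linarith, by linarith⟩
      have h3 : |Real.sin (θ - 2 * Real.pi)| ≤ s := by
        rw [Real.sin_sub_two_pi]
        exact h
      have h4 := abs_le.1 (key _ h2 h3)
      exact ⟨by linarith [h4.1], h1⟩

theorem XVO_sin (s : ℝ) (hs : 0 ≤ s) :
    (volume : Measure ℝ) ({θ : ℝ | |Real.sin θ| ≤ s} ∩ Ioc 0 (2 * Real.pi)) ≤
      ENNReal.ofReal (2 * Real.pi * s) := by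
  have hp := Real.pi_pos
  have h1 : ({θ : ℝ | |Real.sin θ| ≤ s} ∩ Ioc 0 (2 * Real.pi)) ⊆
      (Icc (0 : ℝ) (Real.pi / 2 * s) ∪ Icc (Real.pi - Real.pi / 2 * s) (Real.pi + Real.pi / 2 * s))
      ∪ Icc (2 * Real.pi - Real.pi / 2 * s) (2 * Real.pi) := fun θ h => XVO_sub s θ h.1 h.2
  refine (measure_mono h1).trans ((measure_union_le _ _).trans
    ((add_le_add_left (measure_union_le _ _) _).trans ?_))
  rw [Real.volume_Icc, Real.volume_Icc, Real.volume_Icc, ← ENNReal.ofReal_add (by nlinarith) (by nlinarith),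
    ← ENNReal.ofReal_add (by nlinarith) (by nlinarith)]
  refine ENNReal.ofReal_le_ofReal ?_
  nlinarith

theorem XVO_ent (z : ℍ) (θ : ℝ) :
    (toSL2R z * RS.kM θ).1 0 0 = √z.im * Real.cos θ + z.re / √z.im * (-Real.sin θ) ∧
    (toSL2R z * RS.kM θ).1 0 1 = √z.im * Real.sin θ + z.re / √z.im * Real.cos θ ∧
    (toSL2R z * RS.kM θ).1 1 0 = 1 / √z.im * (-Real.sin θ) ∧
    (toSL2R z * RS.kM θ).1 1 1 = 1 / √z.im * Real.cos θ := by
  have h : (toSL2R z * RS.kM θ).1 = !![√z.im, z.re / √z.im; 0, 1 / √z.im] *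
      !![Real.cos θ, Real.sin θ; -Real.sin θ, Real.cos θ] := rfl
  rw [h]
  refine ⟨?_, ?_, ?_, ?_⟩ <;> simp [Matrix.mul_apply, Fin.sum_univ_two]

theorem XVO_mem (z : ℍ) (θ τ : ℝ) (h1 : ∀ i j : Fin 2, |(toSL2R z * RS.kM θ).1 i j| ≤ 2)
    (h2 : |(toSL2R z * RS.kM θ).1 1 0| ≤ τ) : z ∈ XVO_B ∧ |Real.sin θ| ≤ 3 * τ := by
  obtain ⟨e00, e01, e10, e11⟩ := XVO_ent z θ
  have hy : 0 < z.im := z.im_pos
  set r : ℝ := √z.im with hr
  have hr0 : 0 < r := Real.sqrt_pos.2 hy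
  have hrr : r * r = z.im := Real.mul_self_sqrt hy.le
  have a00 := h1 0 0
  have a01 := h1 0 1
  have a10 := h1 1 0
  have a11 := h1 1 1
  rw [e00] at a00
  rw [e01] at a01
  rw [e10] at a10 h2
  rw [e11] at a11
  have hsc := Real.sin_sq_add_cos_sq θ
  have sq : ∀ x : ℝ, |x| ≤ 2 → x ^ 2 ≤ 4 := fun x hx => by
    have := abs_le.1 hx
    nlinarith [this.1, this.2]
  have b00 := sq _ a00
  have b01 := sq _ a01
  have b10 := sq _ a10
  have b11 := sq _ a11
  have s1 : (1 / r) ^ 2 ≤ 8 := by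
    have : (1 / r) ^ 2 = (1 / r * (-Real.sin θ)) ^ 2 + (1 / r * Real.cos θ) ^ 2 := by
      have e : (1 / r * (-Real.sin θ)) ^ 2 + (1 / r * Real.cos θ) ^ 2 =
        (1 / r) ^ 2 * (Real.sin θ ^ 2 + Real.cos θ ^ 2) := by ring
      rw [e, hsc, mul_one]
    linarith
  have s2 : r ^ 2 + (z.re / r) ^ 2 ≤ 8 := by
    have : r ^ 2 + (z.re / r) ^ 2 = (r * Real.cos θ + z.re / r * (-Real.sin θ)) ^ 2 +
        (r * Real.sin θ + z.re / r * Real.cos θ) ^ 2 := by
      have e : (r * Real.cos θ + z.re / r * (-Real.sin θ)) ^ 2 +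
        (r * Real.sin θ + z.re / r * Real.cos θ) ^ 2 =
        (r ^ 2 + (z.re / r) ^ 2) * (Real.sin θ ^ 2 + Real.cos θ ^ 2) := by ring
      rw [e, hsc, mul_one]
    linarith
  have y1 : 1 ≤ 8 * z.im := by
    rw [← hrr]
    have e : (1 / r) ^ 2 * (r * r) = 1 := by field_simp
    nlinarith [mul_pos hr0 hr0]
  have y2 : z.im ≤ 8 := by
    rw [← hrr]
    nlinarith [sq_nonneg (z.re / r)]
  have x1 : z.re ^ 2 ≤ 64 := by
    have e : (z.re / r) ^ 2 * (r * r) = z.re ^ 2 := by field_simp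
    have e2 : (z.re / r) ^ 2 ≤ 8 := by nlinarith [sq_nonneg r]
    have e3 : (z.re / r) ^ 2 * (r * r) ≤ 8 * (r * r) :=
      mul_le_mul_of_nonneg_right e2 (mul_pos hr0 hr0).le
    nlinarith
  refine ⟨⟨by linarith, y2, abs_le.2 ⟨by nlinarith, by nlinarith⟩⟩, ?_⟩
  have hτ : 0 ≤ τ := (abs_nonneg _).trans h2
  have e1 : |1 / r * (-Real.sin θ)| = |Real.sin θ| / r := by
    rw [abs_mul, abs_neg, abs_of_pos (by positivity)]
    ring
  rw [e1, div_le_iff₀ hr0] at h2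
  have r3 : r ≤ 3 := by
    by_contra hc
    push Not at hc
    nlinarith
  nlinarith

theorem XVO_closed (τ : ℝ) :
    IsClosed {h : SL(2, ℝ) | (∀ i j : Fin 2, |h.1 i j| ≤ 2) ∧ |h.1 1 0| ≤ τ} := by
  have hc : ∀ i j : Fin 2, Continuous fun h : SL(2, ℝ) => |h.1 i j| := fun i j =>
    ((continuous_apply j).comp ((continuous_apply i).comp continuous_subtype_val)).abs
  have h1 : {h : SL(2, ℝ) | (∀ i j : Fin 2, |h.1 i j| ≤ 2) ∧ |h.1 1 0| ≤ τ} =
      (⋂ i : Fin 2, ⋂ j : Fin 2, {h : SL(2, ℝ) | |h.1 i j| ≤ 2}) ∩ {h : SL(2, ℝ) | |h.1 1 0| ≤ τ} := by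
    ext h
    simp only [Set.mem_inter_iff, Set.mem_iInter, Set.mem_ofPred_eq]
  rw [h1]
  exact (isClosed_iInter fun i => isClosed_iInter fun j =>
    isClosed_le (hc i j) continuous_const).inter (isClosed_le (hc 1 0) continuous_const)

theorem XVO_proof : XVO_stmt := by
  have hG : RS.GMG_stmt := RS.GMG RS.GLC
  have hV := XVO_volume
  refine ⟨3 * ((volume : Measure ℍ) XVO_B).toReal + 1, by positivity, fun τ hτ => ?_⟩
  set H : Set SL(2, ℝ) := {h : SL(2, ℝ) | (∀ i j : Fin 2, |h.1 i j| ≤ 2) ∧ |h.1 1 0| ≤ τ} with hH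
  have hHm : MeasurableSet H := (XVO_closed τ).measurableSet
  have hp := Real.pi_pos
  rw [← lintegral_indicator_one hHm, hG.2.2.2.1 _ (measurable_one.indicator hHm)]
  have hS : MeasurableSet {θ : ℝ | |Real.sin θ| ≤ 3 * τ} :=
    (isClosed_le Real.continuous_sin.abs continuous_const).measurableSet
  have hin : ∀ z : ℍ, (ENNReal.ofReal (2 * Real.pi))⁻¹ *
      ∫⁻ θ in Ioc 0 (2 * Real.pi), H.indicator (1 : SL(2, ℝ) → ENNReal) (toSL2R z * RS.kM θ) ≤
      XVO_B.indicator (fun _ => ENNReal.ofReal (3 * τ)) z := by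
    intro z
    by_cases hz : z ∈ XVO_B
    · rw [Set.indicator_of_mem hz]
      have h1 : ∫⁻ θ in Ioc 0 (2 * Real.pi), H.indicator (1 : SL(2, ℝ) → ENNReal) (toSL2R z * RS.kM θ) ≤
          ∫⁻ θ in Ioc 0 (2 * Real.pi), {θ : ℝ | |Real.sin θ| ≤ 3 * τ}.indicator (1 : ℝ → ENNReal) θ := by
        refine lintegral_mono fun θ => ?_
        by_cases hm : toSL2R z * RS.kM θ ∈ H
        · have h2 := (XVO_mem z θ τ hm.1 hm.2).2
          rw [Set.indicator_of_mem hm, Set.indicator_of_mem (show θ ∈ {θ : ℝ | |Real.sin θ| ≤ 3 * τ} from h2)]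
          exact le_rfl
        · rw [Set.indicator_of_notMem hm]
          exact zero_le
      have h2 : ∫⁻ θ in Ioc 0 (2 * Real.pi), {θ : ℝ | |Real.sin θ| ≤ 3 * τ}.indicator (1 : ℝ → ENNReal) θ ≤
          ENNReal.ofReal (2 * Real.pi * (3 * τ)) := by
        rw [lintegral_indicator_one hS, Measure.restrict_apply hS]
        exact XVO_sin (3 * τ) (by positivity)
      calc (ENNReal.ofReal (2 * Real.pi))⁻¹ *
          ∫⁻ θ in Ioc 0 (2 * Real.pi), H.indicator (1 : SL(2, ℝ) → ENNReal) (toSL2R z * RS.kM θ)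
          ≤ (ENNReal.ofReal (2 * Real.pi))⁻¹ * ENNReal.ofReal (2 * Real.pi * (3 * τ)) :=
            mul_le_mul_right (h1.trans h2) _
        _ = ENNReal.ofReal (3 * τ) := by
            have h3 : ENNReal.ofReal (2 * Real.pi) ≠ 0 := by
              rw [Ne, ENNReal.ofReal_eq_zero, not_le]
              positivity
            rw [ENNReal.ofReal_mul (p := 2 * Real.pi) (q := 3 * τ) (by positivity), ← mul_assoc,
              ENNReal.inv_mul_cancel h3 ENNReal.ofReal_ne_top, one_mul]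
    · rw [Set.indicator_of_notMem hz]
      have h1 : ∀ θ : ℝ, H.indicator (1 : SL(2, ℝ) → ENNReal) (toSL2R z * RS.kM θ) = 0 := by
        intro θ
        refine Set.indicator_of_notMem (fun hm => hz (XVO_mem z θ τ hm.1 hm.2).1) _
      simp only [h1, lintegral_zero, mul_zero]
      exact le_rfl
  refine (lintegral_mono hin).trans ?_
  rw [lintegral_indicator XVO_compact.measurableSet, setLIntegral_const]
  rw [← ENNReal.ofReal_toReal hV.ne, ← ENNReal.ofReal_mul (by positivity)]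
  refine ENNReal.ofReal_le_ofReal ?_
  rw [ENNReal.toReal_ofReal ENNReal.toReal_nonneg]
  nlinarith

end Pool.Agent.EN
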